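import Pool.Agent.V5helper75.BB.Stm2
import Pool.Agent.V5helper74.LR.Raag

/-!
# Project BB: the flats of a right-angled Artin group, torsion-freeness
-/

set_option autoImplicit false
set_option linter.unusedSectionVars false

namespace Pool.Agent.V5helper91.BB

open Pool.Agent.W907.SG Pool.Agent.W461.SGN Pool.Agent.V5helper75.VO Pool.Agent.N496.CV Pool.Agent.V5helper74.LR
open Pool.Agent.V5helper75.BB
open Pool.Agent.V5helper75.BK (Raag art art_comm)

section

variable {V : Type} {G : SimpleGraph V}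

theorem art_comm_of {S : Finset V} (hS : G.IsClique (S : Set V)) {v w : V} (hv : v ∈ S) (hw : w ∈ S) :
    Commute (art G v) (art G w) := by
  by_cases h : v = w
  · rw [h]
  · exact art_comm (hS hv hw h)

theorem art_mem {S : Finset V} {v : V} (hv : v ∈ S) : art G v ∈ Flat G S :=
  Subgroup.subset_closure ⟨v, hv, rfl⟩

theorem flat_mono {S T : Finset V} (h : S ⊆ T) : Flat G S ≤ Flat G T :=
  Subgroup.closure_mono (Set.image_mono (fun _ hv => h hv))

/-- the elements which commute with the generators commute with the flat -/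
theorem flat_comm_of {S : Finset V} {z : Raag G} (hz : ∀ v ∈ S, Commute z (art G v)) {x : Raag G}
    (hx : x ∈ Flat G S) : Commute z x := by
  unfold Flat at hx
  induction hx using Subgroup.closure_induction with
  | mem a ha =>
    obtain ⟨v, hv, rfl⟩ := ha
    exact hz v hv
  | one => exact Commute.one_right _
  | mul a b _ _ ha hb => exact ha.mul_right hb
  | inv a _ ha => exact ha.inv_right

theorem flat_comm {S : Finset V} (hS : G.IsClique (S : Set V)) {x y : Raag G} (hx : x ∈ Flat G S)
    (hy : y ∈ Flat G S) : Commute x y :=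
  flat_comm_of (fun _ hv => (flat_comm_of (fun _ hw => art_comm_of hS hv hw) hx).symm) hy

theorem flat_comm_lk {S : Finset V} {x : Raag G} (hx : x ∈ Flat G S) {w : V} (hw : ∀ v ∈ S, G.Adj v w) :
    Commute (art G w) x :=
  flat_comm_of (fun v hv => art_comm (hw v hv).symm) hx

theorem flat_insert [DecidableEq V] {S : Finset V} {w : V}
    (hS : G.IsClique ((insert w S : Finset V) : Set V)) {k : Raag G} (hk : k ∈ Flat G (insert w S)) :
    ∃ (a : ℤ), ∃ s ∈ Flat G S, k = art G w ^ a * s := by
  have key : ∀ s ∈ Flat G S, Commute (art G w) s := fun s hs =>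
    flat_comm hS (art_mem (Finset.mem_insert_self w S)) (flat_mono (Finset.subset_insert w S) hs)
  unfold Flat at hk
  induction hk using Subgroup.closure_induction with
  | mem x hx =>
    obtain ⟨v, hv, rfl⟩ := hx
    rcases Finset.mem_insert.1 hv with h | h
    · exact ⟨1, 1, one_mem _, by rw [h, zpow_one, mul_one]⟩
    · exact ⟨0, art G v, art_mem h, by rw [zpow_zero, one_mul]⟩
  | one => exact ⟨0, 1, one_mem _, by rw [zpow_zero, one_mul]⟩
  | mul x y _ _ hx hy =>
    obtain ⟨a, s, hs, rfl⟩ := hx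
    obtain ⟨b, t, ht, rfl⟩ := hy
    refine ⟨a + b, s * t, mul_mem hs ht, ?_⟩
    have h1 : s * art G w ^ b = art G w ^ b * s := (((key s hs).zpow_left b).eq).symm
    calc art G w ^ a * s * (art G w ^ b * t) = art G w ^ a * (s * art G w ^ b) * t := by group
      _ = art G w ^ a * (art G w ^ b * s) * t := by rw [h1]
      _ = art G w ^ (a + b) * (s * t) := by rw [zpow_add]; group
  | inv x _ hx =>
    obtain ⟨a, s, hs, rfl⟩ := hx
    refine ⟨-a, s⁻¹, inv_mem hs, ?_⟩
    have h1 : s⁻¹ * art G w ^ (-a) = art G w ^ (-a) * s⁻¹ :=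
      (((key _ (inv_mem hs)).zpow_left (-a)).eq).symm
    rw [mul_inv_rev, ← zpow_neg, h1]

end

theorem raag_tf {V : Type} [Fintype V] [LinearOrder V] (G : SimpleGraph V) (k : Raag G) (m : ℕ) (hm : 0 < m)
    (h : k ^ m = 1) : k = 1 := by
  have h0 : ∃ f : Raag G →* W (oct G), Function.Injective f ∧ f.range ≤ (th (oct G)).ker := by
    obtain ⟨f, h1, _, h2⟩ := exists_raag G
    exact ⟨f, h1, h2⟩
  obtain ⟨f, hf, hr⟩ := h0
  apply hf
  rw [map_one]
  refine tf (V ×ₗ Bool) (oct G) (f k) (hr ⟨k, rfl⟩) m hm ?_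
  rw [← map_pow, h, map_one]

end Pool.Agent.V5helper91.BB
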