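import Pool.Agent.V5helper75.BB.Stm

/-!
# Project BB: the coefficients are the sum of the augmentation parts
-/

set_option autoImplicit false
set_option linter.unusedSectionVars false

noncomputable section

namespace Pool.Agent.V5helper91.BB

open Finset Pool.Agent.W907.SG Pool.Agent.W461.SGN Pool.Agent.V5helper75.VO Pool.Agent.N496.CV Pool.Agent.V5helper74.LR
open Pool.Agent.V5helper75.BB

section

variable {V : Type} [Fintype V] [LinearOrder V] {G : SimpleGraph V}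
variable {R : Type} [Ring R] [Module ℝ R] [IsScalarTower ℝ R R] {K : Subgroup (W (oct G))} {u : K →* R}

/-- the right translates differ by elements of the sum of the augmentation parts -/
def Tr (K : Subgroup (W (oct G))) (u : K →* R) (P : Finset V) (g : W (oct G)) : Prop :=
  ∀ f : MM K u, ∃ f' : MM K u, (∀ x, f'.1 x = f.1 (x * g)) ∧
    f - f' ∈ cup (NN (sp : V ×ₗ Bool → MM K u →ₗ[ℝ] MM K u)) P

theorem tr_one (P : Finset V) : Tr K u P 1 := fun f =>
  ⟨f, fun x => by rw [mul_one], by rw [sub_self]; exact Submodule.zero_mem _⟩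

theorem tr_mul {P : Finset V} {g h : W (oct G)} (hg : Tr K u P g) (hh : Tr K u P h) : Tr K u P (g * h) := by
  intro f
  obtain ⟨f1, h1, h1'⟩ := hh f
  obtain ⟨f2, h2, h2'⟩ := hg f1
  refine ⟨f2, fun x => ?_, ?_⟩
  · rw [h2, h1, mul_assoc]
  · have e : f - f2 = (f - f1) + (f1 - f2) := by abel
    rw [e]
    exact Submodule.add_mem _ h1' h2'

theorem tr_simple {P : Finset V} {p : V ×ₗ Bool} (hp : fs p ∈ P) : Tr K u P ((cox (oct G)).simple p) := by
  intro f
  refine ⟨sp p f, fun x => rfl, ?_⟩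
  refine le_cup hp (anti_le p (mem_anti.2 ?_))
  rw [map_sub, sp_inv.inv]
  abel

theorem simple_inv (p : V ×ₗ Bool) : ((cox (oct G)).simple p)⁻¹ = (cox (oct G)).simple p :=
  inv_eq_of_mul_eq_one_left (simple_mul_self (oct G) p)

theorem tr_dih {P : Finset V} {g : W (oct G)} (hg : g ∈ Dih G P) : Tr K u P g ∧ Tr K u P g⁻¹ := by
  unfold Dih at hg
  induction hg using Subgroup.closure_induction with
  | mem x hx =>
    obtain ⟨p, hp, rfl⟩ := hx
    rw [simple_inv]
    exact ⟨tr_simple hp, tr_simple hp⟩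
  | one => rw [inv_one]; exact ⟨tr_one P, tr_one P⟩
  | mul x y _ _ hx hy => rw [mul_inv_rev]; exact ⟨tr_mul hx.1 hy.1, tr_mul hy.2 hx.2⟩
  | inv x _ hx => rw [inv_inv]; exact ⟨hx.2, hx.1⟩

open Classical in
/-- the function supported on one coset -/
def dl (u : K →* R) (x : W (oct G)) (r : R) (w : W (oct G)) : R :=
  if h : w * x⁻¹ ∈ K then r * u (⟨w * x⁻¹, h⟩ : K)⁻¹ else 0

theorem dl_pos (x : W (oct G)) (r : R) {w : W (oct G)} (k : K) (h : w = k * x) : dl u x r w = r * u k⁻¹ := by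
  subst h
  have e : (k : W (oct G)) * x * x⁻¹ = k := by group
  have h1 : (k : W (oct G)) * x * x⁻¹ ∈ K := by rw [e]; exact k.2
  unfold dl
  rw [dif_pos h1]
  congr 3
  exact Subtype.ext e

theorem dl_neg (x : W (oct G)) (r : R) {w : W (oct G)} (h : w * x⁻¹ ∉ K) : dl u x r w = 0 := by
  unfold dl
  rw [dif_neg h]

theorem dl_mem (x : W (oct G)) (r : R) : InM K u Set.univ ⊥ (dl u x r) := by
  refine ⟨fun w _ => Set.mem_univ w, fun p hp w => ?_, fun h w => ?_, ⟨{x}, fun w hw => ?_⟩⟩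
  · rw [Subgroup.mem_bot] at hp
    subst hp
    simp
  · by_cases h1 : w * x⁻¹ ∈ K
    · have e1 : w = ((⟨w * x⁻¹, h1⟩ : K) : W (oct G)) * x := by
        show w = w * x⁻¹ * x
        group
      have e2 : (h : W (oct G)) * w = ((h * ⟨w * x⁻¹, h1⟩ : K) : W (oct G)) * x := by
        show (h : W (oct G)) * w = h * (w * x⁻¹) * x
        group
      rw [dl_pos x r _ e1, dl_pos x r _ e2, mul_inv_rev, map_mul, mul_assoc]
    · have h2 : (h : W (oct G)) * w * x⁻¹ ∉ K := by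
        intro h3
        rw [mul_assoc] at h3
        exact h1 ((Subgroup.mul_mem_cancel_left K h.2).1 h3)
      rw [dl_neg x r h1, dl_neg x r h2, zero_mul]
  · by_cases h1 : w * x⁻¹ ∈ K
    · refine ⟨⟨w * x⁻¹, h1⟩, x, mem_singleton_self x, 1, Subgroup.one_mem _, ?_⟩
      show w = w * x⁻¹ * x * 1
      group
    · exact absurd (dl_neg x r h1) hw

/-- the function supported on one coset, as an element of the coefficients -/
def dm (u : K →* R) (x : W (oct G)) (r : R) : MM K u := ⟨dl u x r, dl_mem x r⟩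

theorem dm_mem (hR : Rg K u) {P : Finset V} {x h : W (oct G)} (hh : h ∈ Dih G P) (h1 : h ≠ 1)
    (hK : x * h * x⁻¹ ∈ K) (r : R) : dm u x r ∈ cup (NN (sp : V ×ₗ Bool → MM K u →ₗ[ℝ] MM K u)) P := by
  obtain ⟨k, hk⟩ : ∃ k : K, (k : W (oct G)) = x * h * x⁻¹ := ⟨⟨_, hK⟩, rfl⟩
  have hk1 : k⁻¹ ≠ 1 := by
    intro h2
    rw [inv_eq_one] at h2
    rw [h2] at hk
    apply h1
    have h3 : x * h * x⁻¹ = 1 := hk.symm
    have h4 : h = x⁻¹ * (x * h * x⁻¹) * x := by group
    rw [h4, h3]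
    group
  obtain ⟨a, ha⟩ := hR.inv _ hk1
  obtain ⟨f', hf', hN⟩ := (tr_dih (K := K) (u := u) hh).1 (dm u x (r * ((a⁻¹ : Rˣ) : R)))
  have e : dm u x r = dm u x (r * ((a⁻¹ : Rˣ) : R)) - f' := by
    apply Subtype.ext
    funext w
    have e0 : (dm u x (r * ((a⁻¹ : Rˣ) : R)) - f').1 w = dl u x (r * ((a⁻¹ : Rˣ) : R)) w - f'.1 w := rfl
    have e00 : f'.1 w = dl u x (r * ((a⁻¹ : Rˣ) : R)) (w * h) := hf' w
    rw [e0, e00]
    show dl u x r w = _
    by_cases h2 : w * x⁻¹ ∈ K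
    · obtain ⟨l, hl⟩ : ∃ l : K, (l : W (oct G)) = w * x⁻¹ := ⟨⟨_, h2⟩, rfl⟩
      have e1 : w = (l : W (oct G)) * x := by rw [hl]; group
      have e2 : w * h = ((l * k : K) : W (oct G)) * x := by
        have : ((l * k : K) : W (oct G)) = l * k := rfl
        rw [this, hl, hk]
        group
      rw [dl_pos x _ _ e1, dl_pos x _ _ e1, dl_pos x _ _ e2, mul_inv_rev, map_mul]
      have e3 : r * ((a⁻¹ : Rˣ) : R) * u l⁻¹ - r * ((a⁻¹ : Rˣ) : R) * (u k⁻¹ * u l⁻¹) =
          r * (((a⁻¹ : Rˣ) : R) * (1 - u k⁻¹)) * u l⁻¹ := by noncomm_ring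
      rw [e3, ← ha, Units.inv_mul, mul_one]
    · have h3 : w * h * x⁻¹ ∉ K := by
        intro h4
        have h5 : w * h * x⁻¹ = (w * x⁻¹) * k := by rw [hk]; group
        rw [h5] at h4
        exact h2 ((Subgroup.mul_mem_cancel_right K k.2).1 h4)
      rw [dl_neg x _ h2, dl_neg x _ h2, dl_neg x _ h3, sub_zero]
  rw [e]
  exact hN

theorem all_mem (hR : Rg K u) {P : Finset V} (hP : ∀ x : W (oct G), ∃ h ∈ Dih G P, h ≠ 1 ∧ x * h * x⁻¹ ∈ K)
    (S : Finset (W (oct G))) : ∀ f : MM K u, (∀ w, f.1 w ≠ 0 → ∃ k : K, ∃ x ∈ S, w = k * x) →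
    f ∈ cup (NN (sp : V ×ₗ Bool → MM K u →ₗ[ℝ] MM K u)) P := by
  classical
  induction S using Finset.induction_on with
  | empty =>
    intro f hf
    have e : f = 0 := by
      apply Subtype.ext
      funext w
      by_contra h
      obtain ⟨k, x, hx, -⟩ := hf w h
      exact absurd hx (notMem_empty x)
    rw [e]
    exact Submodule.zero_mem _
  | insert x S hx ih =>
    intro f hf
    obtain ⟨h, hh, h1, hK⟩ := hP x
    have h2 : dm u x (f.1 x) ∈ cup (NN (sp : V ×ₗ Bool → MM K u →ₗ[ℝ] MM K u)) P := dm_mem hR hh h1 hK _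
    have h3 : f - dm u x (f.1 x) ∈ cup (NN (sp : V ×ₗ Bool → MM K u →ₗ[ℝ] MM K u)) P := by
      apply ih
      intro w hw
      have e0 : (f - dm u x (f.1 x)).1 w = f.1 w - dl u x (f.1 x) w := rfl
      rw [e0] at hw
      have h4 : w * x⁻¹ ∉ K := by
        intro h4
        obtain ⟨l, hl⟩ : ∃ l : K, (l : W (oct G)) = w * x⁻¹ := ⟨⟨_, h4⟩, rfl⟩
        have e1 : w = (l : W (oct G)) * x := by rw [hl]; group
        apply hw
        rw [dl_pos x _ _ e1, e1, f.2.eqK l x, sub_self]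
      rw [dl_neg x _ h4, sub_zero] at hw
      obtain ⟨k, y, hy, e⟩ := hf w hw
      rcases mem_insert.1 hy with rfl | hy'
      · exfalso
        apply h4
        rw [e, mul_inv_cancel_right]
        exact k.2
      · exact ⟨k, y, hy', e⟩
    have e : f = (f - dm u x (f.1 x)) + dm u x (f.1 x) := by abel
    rw [e]
    exact Submodule.add_mem _ h3 h2

end

theorem t_TOP : Pool.Agent.V5helper75.BB.S_TOP := by
  intro V _ _ G R _ _ _ K u hR P hP
  rw [Submodule.eq_top_iff']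
  intro f
  obtain ⟨S, hS⟩ := f.2.fin
  refine all_mem hR hP S f fun w hw => ?_
  obtain ⟨k, x, hx, p, hp, e⟩ := hS w hw
  rw [Subgroup.mem_bot] at hp
  subst hp
  refine ⟨k, x, hx, ?_⟩
  rw [e]
  show k * x * 1 = k * x
  rw [mul_one]

end Pool.Agent.V5helper91.BB
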